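import Pool.Agent.N228.AZ.Stm3
import Pool.Agent.N9.AZ.AnuM

/-!
# Project AZ: the area of an annulus with error `O(1 / n)`
-/

set_option autoImplicit false
open Metric MeasureTheory Set Filter Topology

namespace Pool.Agent.N547.AZ.Anu2

open Pool.Agent.W747.MB Pool.Agent.N228.AZ

lemma ev_log : ∀ᶠ n : ℕ in atTop, Real.log (6 * n) ^ 2 ≤ (n : ℝ) - 1 := by
  have h1 : ∀ᶠ x : ℝ in atTop, ‖Real.log x ^ 2‖ ≤ 1 / 12 * ‖x‖ :=
    (Real.isLittleO_pow_log_id_atTop (n := 2)).bound (by norm_num)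
  have h2 : Tendsto (fun n : ℕ => 6 * (n : ℝ)) atTop atTop :=
    tendsto_natCast_atTop_atTop.const_mul_atTop (by norm_num)
  filter_upwards [h2.eventually h1, eventually_ge_atTop 2] with n hn h2n
  have hn' : (2 : ℝ) ≤ n := by exact_mod_cast h2n
  rw [Real.norm_of_nonneg (sq_nonneg _), Real.norm_of_nonneg (by positivity)] at hn
  linarith

theorem main : P_ANU2 := by
  refine ⟨14 * Real.pi, by positivity, ?_⟩
  filter_upwards [ev_log, eventually_ge_atTop 3] with n hlogn hn3 a b ha hab hb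
  have hn : 2 ≤ n := by omega
  have hn' : (3 : ℝ) ≤ n := by exact_mod_cast hn3
  have hn0 : (0 : ℝ) < n := by linarith
  have hn1 : (0 : ℝ) < (n : ℝ) - 1 := by linarith
  have ha0 : 0 < a := by linarith
  have hb0 : 0 < b := by linarith
  obtain ⟨R, r, hr0, hR0, hR, hr, harea⟩ := Pool.Agent.N9.AZ.AnuM.area hn ha0 hab
  have hZ : Zn n a b =
      {c : ℂ | a ≤ (n : ℝ) * ‖c‖ ^ (n - 1) ∧ (n : ℝ) * ‖c‖ ^ (n - 1) ≤ b} := rfl
  rw [hZ, harea]
  obtain ⟨e, he⟩ : ∃ e : ℝ, e = 1 / ((n : ℝ) - 1) := ⟨_, rfl⟩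
  rw [← he] at hR hr
  have he0 : 0 < e := by rw [he]; positivity
  have he1 : e ≤ 1 / 2 := by
    rw [he]
    exact one_div_le_one_div_of_le (by norm_num) (by linarith)
  obtain ⟨l, hl⟩ : ∃ l : ℝ, l = Real.log (b / a) := ⟨_, rfl⟩
  rw [← hl]
  have hl0 : 0 ≤ l := by
    rw [hl]
    exact Real.log_nonneg (by rw [le_div_iff₀ ha0]; linarith)
  have hL1 : 1 ≤ Real.log (6 * n) := by
    rw [Real.le_log_iff_exp_le (by positivity)]
    have := Real.exp_one_lt_d9
    linarith
  have hlL : l ≤ Real.log (6 * n) := by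
    rw [hl]
    apply Real.log_le_log (by positivity)
    rw [div_le_iff₀ ha0]
    nlinarith
  have hL3 : Real.log (3 * n) ≤ Real.log (6 * n) :=
    Real.log_le_log (by positivity) (by linarith)
  have hL30 : 0 ≤ Real.log (3 * n) := Real.log_nonneg (by linarith)
  have hLL : Real.log (6 * n) ≤ Real.log (6 * n) ^ 2 := by
    rw [sq]
    exact le_mul_of_one_le_left (by linarith) hL1
  have heL : e * Real.log (6 * n) ^ 2 ≤ 1 := by
    rw [he, one_div_mul_eq_div, div_le_one hn1]
    exact hlogn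
  have hlog : Real.log (b / n) = Real.log (a / n) + l := by
    rw [hl, ← Real.log_mul (by positivity) (by positivity)]
    congr 1
    field_simp
  have hne : n * e = 1 + e := by
    rw [he]
    field_simp
    ring
  have hR2 : R ^ 2 = Real.exp (2 * (e * Real.log (b / n))) := by
    rw [hR, ← Real.exp_nat_mul]
    norm_num
  have hr2 : r ^ 2 = Real.exp (2 * (e * Real.log (a / n))) := by
    rw [hr, ← Real.exp_nat_mul]
    norm_num
  have hRr : R ^ 2 = r ^ 2 * Real.exp (2 * (e * l)) := by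
    rw [hR2, hr2, ← Real.exp_add, hlog]
    congr 1
    ring
  have hrR : r ^ 2 = R ^ 2 * Real.exp (-(2 * (e * l))) := by
    rw [hRr, mul_assoc, ← Real.exp_add, add_neg_cancel, Real.exp_zero, mul_one]
  have hel : 0 ≤ e * l := by positivity
  have hdiff : 0 ≤ R ^ 2 - r ^ 2 := by
    rw [hRr]
    have : 1 ≤ Real.exp (2 * (e * l)) := Real.one_le_exp (by positivity)
    nlinarith [sq_nonneg r]
  rw [ENNReal.toReal_ofReal (by positivity)]
  have hpi := Real.pi_pos
  -- lower bound
  have low : 2 * l - 6 ≤ n * (R ^ 2 - r ^ 2) := by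
    have h3 : 1 - 2 * (e * Real.log (3 * n)) ≤ r ^ 2 := by
      have h4 := Real.add_one_le_exp (2 * (e * Real.log (a / n)))
      have h5 : -Real.log (3 * n) ≤ Real.log (a / n) := by
        rw [← Real.log_inv]
        apply Real.log_le_log (by positivity)
        rw [mul_inv, div_eq_mul_inv]
        gcongr
        linarith
      have h6 : e * (-Real.log (3 * n)) ≤ e * Real.log (a / n) :=
        mul_le_mul_of_nonneg_left h5 he0.le
      rw [hr2]
      linarith
    have h7 := Real.add_one_le_exp (2 * (e * l))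
    have h8 : r ^ 2 * (2 * (e * l)) ≤ R ^ 2 - r ^ 2 := by
      rw [hRr]
      nlinarith [sq_nonneg r]
    have h9 : (1 - 2 * (e * Real.log (3 * n))) * (2 * (e * l)) ≤ R ^ 2 - r ^ 2 :=
      (mul_le_mul_of_nonneg_right h3 (by positivity)).trans h8
    have h10 : n * ((1 - 2 * (e * Real.log (3 * n))) * (2 * (e * l))) ≤ n * (R ^ 2 - r ^ 2) :=
      mul_le_mul_of_nonneg_left h9 hn0.le
    have h11 : n * ((1 - 2 * (e * Real.log (3 * n))) * (2 * (e * l))) =
        2 * (1 + e) * l - 4 * (1 + e) * (e * (Real.log (3 * n) * l)) := by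
      rw [← hne]; ring
    have h12 : e * (Real.log (3 * n) * l) ≤ e * Real.log (6 * n) ^ 2 := by
      apply mul_le_mul_of_nonneg_left _ he0.le
      rw [sq]
      exact mul_le_mul hL3 hlL hl0 (by linarith)
    have h14 : 0 ≤ e * (Real.log (3 * n) * l) := by positivity
    have h15 : e * (e * (Real.log (3 * n) * l)) ≤ 1 / 2 * 1 :=
      mul_le_mul he1 (h12.trans heL) h14 (by norm_num)
    have h16 : 2 * (1 + e) * l - 4 * (1 + e) * (e * (Real.log (3 * n) * l)) =
        2 * l + 2 * (e * l) - 4 * (e * (Real.log (3 * n) * l)) -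
          4 * (e * (e * (Real.log (3 * n) * l))) := by ring
    linarith [h12.trans heL]
  have up : n * (R ^ 2 - r ^ 2) ≤ 2 * l + 14 := by
    have h3 : R ^ 2 ≤ 1 + 3 * e := by
      have h4 : Real.log (b / n) ≤ Real.log 2 := by
        apply Real.log_le_log (by positivity)
        rw [div_le_iff₀ hn0]
        linarith
      have h5 : 2 * (e * Real.log (b / n)) ≤ 1.4 * e := by
        have h6 := Real.log_two_lt_d9
        have h7 : e * Real.log (b / n) ≤ e * 0.7 :=
          mul_le_mul_of_nonneg_left (by linarith) he0.le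
        linarith
      have h6 := Real.abs_exp_sub_one_sub_id_le (x := 1.4 * e)
        (by rw [abs_of_nonneg (by positivity)]; linarith)
      have h7 := (abs_le.1 h6).2
      have h8 : Real.exp (2 * (e * Real.log (b / n))) ≤ Real.exp (1.4 * e) :=
        Real.exp_le_exp.2 h5
      rw [hR2]
      have h9 : (1.4 * e) ^ 2 ≤ e := by
        have : e * e ≤ 1 / 2 * e := mul_le_mul_of_nonneg_right he1 he0.le
        have e3 : (1.4 * e) ^ 2 = 1.96 * (e * e) := by ring
        rw [e3]
        linarith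
      linarith
    have h5 := Real.add_one_le_exp (-(2 * (e * l)))
    have h6 : R ^ 2 - r ^ 2 ≤ R ^ 2 * (2 * (e * l)) := by
      have h7 : R ^ 2 * (1 - Real.exp (-(2 * (e * l)))) ≤ R ^ 2 * (2 * (e * l)) :=
        mul_le_mul_of_nonneg_left (by linarith) (sq_nonneg R)
      have h8 : R ^ 2 - r ^ 2 = R ^ 2 * (1 - Real.exp (-(2 * (e * l)))) := by
        rw [hrR]; ring
      linarith
    have h7 : R ^ 2 * (2 * (e * l)) ≤ (1 + 3 * e) * (2 * (e * l)) :=
      mul_le_mul_of_nonneg_right h3 (by positivity)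
    have h8 : n * (R ^ 2 - r ^ 2) ≤ n * ((1 + 3 * e) * (2 * (e * l))) :=
      mul_le_mul_of_nonneg_left (h6.trans h7) hn0.le
    have h9 : n * ((1 + 3 * e) * (2 * (e * l))) = 2 * l + 2 * (e * l) * (4 + 3 * e) := by
      have : n * ((1 + 3 * e) * (2 * (e * l))) = (1 + 3 * e) * (2 * ((n * e) * l)) := by ring
      rw [this, hne]; ring
    have h13 : e * l ≤ 1 :=
      (mul_le_mul_of_nonneg_left (hlL.trans hLL) he0.le).trans heL
    have h14 : 2 * (e * l) * (4 + 3 * e) ≤ 2 * 1 * (4 + 3 * 1) := by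
      apply mul_le_mul (by linarith) (by linarith) (by positivity) (by norm_num)
    linarith
  have e1 : n * (Real.pi * (R ^ 2 - r ^ 2)) - 2 * Real.pi * l =
      Real.pi * (n * (R ^ 2 - r ^ 2) - 2 * l) := by ring
  rw [e1, abs_mul, abs_of_pos hpi, mul_comm]
  apply mul_le_mul_of_nonneg_right _ hpi.le
  rw [abs_le]
  constructor <;> linarith

end Pool.Agent.N547.AZ.Anu2
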