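import Pool.Agent.N228.AZ.Stm5
import Pool.Agent.N849.AZ.Up
import Pool.Agent.N72.AZ.Main
import Pool.Agent.TH363.CD.Upper3

/-!
# Project AZ: common facts for the uniform asymptotics
-/

set_option autoImplicit false
open Metric MeasureTheory Set Filter Topology

namespace Pool.Agent.N547.AZ.Com

open Pool.Agent.W747.MB Pool.Agent.TH363.CD Pool.Agent.N228.AZ
open Pool.Agent.N849.AZ (cont_Y meas_Zn Zn_fin)

lemma plog_nonneg (x : ℝ) : 0 ≤ plog x := Real.log_nonneg (le_max_right _ _)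

lemma plog_le {x : ℝ} : plog x ≤ max (x - 1) 0 := by
  unfold plog
  rcases le_total x 1 with h | h
  · rw [max_eq_right h, Real.log_one]
    exact le_max_right _ _
  · rw [max_eq_left h]
    exact (Real.log_le_sub_one_of_pos (by linarith)).trans (le_max_left _ _)

lemma it_nonneg (n j : ℕ) : 0 ≤ plog^[j] (n:ℝ) := by
  cases j with
  | zero => simp
  | succ j =>
    rw [Function.iterate_succ_apply']
    exact plog_nonneg _

lemma it_succ_le (n j : ℕ) : plog^[j + 1] (n:ℝ) ≤ plog^[j] (n:ℝ) := by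
  rw [Function.iterate_succ_apply']
  refine plog_le.trans (max_le (by linarith) (it_nonneg n j))

lemma it_anti (n : ℕ) : Antitone (fun j => plog^[j] (n:ℝ)) :=
  antitone_nat_of_succ_le (it_succ_le n)

lemma it_le (n j : ℕ) : plog^[j] (n:ℝ) ≤ max ((n:ℝ) - j) 0 := by
  induction j with
  | zero => simp
  | succ j ih =>
    rw [Function.iterate_succ_apply']
    refine plog_le.trans (max_le ?_ (le_max_right _ _))
    rcases le_max_iff.1 ih with h | h
    · refine le_trans ?_ (le_max_left _ _)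
      push_cast
      linarith
    · refine le_trans ?_ (le_max_right _ _)
      linarith

lemma it_zero {n j : ℕ} (h : n ≤ j) : plog^[j] (n:ℝ) = 0 := by
  refine le_antisymm ((it_le n j).trans (max_le ?_ le_rfl)) (it_nonneg n j)
  have : (n : ℝ) ≤ j := by exact_mod_cast h
  linarith

lemma it_one {n : ℕ} (hn : 1 ≤ n) : plog^[1] (n:ℝ) = Real.log n := by
  have : (1 : ℝ) ≤ n := by exact_mod_cast hn
  simp [plog, max_eq_left this]

lemma it_le_n (n j : ℕ) : plog^[j] (n:ℝ) ≤ n := by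
  have h := it_anti n (Nat.zero_le j)
  simpa using h

lemma tele (l : ℕ → ℝ) (J : ℕ) :
    ∑ j ∈ Finset.Icc 1 J, (1 / 2 : ℝ) ^ j * l j +
      ∑ m ∈ Finset.Icc 1 J, (1 / 2 : ℝ) ^ m * (l m - l (m + 1)) =
      l 1 - (1 / 2) ^ J * l (J + 1) := by
  induction J with
  | zero => simp
  | succ J ih =>
    rw [Finset.sum_Icc_succ_top (by omega), Finset.sum_Icc_succ_top (by omega)]
    have h1 : (1 / 2 : ℝ) ^ J = 2 * (1 / 2) ^ (J + 1) := by
      rw [pow_succ]; ring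
    rw [h1] at ih
    linear_combination ih

lemma sum_j (J : ℕ) : ∑ j ∈ Finset.Icc 1 J, (j : ℝ) * (1 / 2) ^ j ≤ 2 := by
  have h : ∑ j ∈ Finset.Icc 1 J, (j : ℝ) * (1 / 2) ^ j = 2 - (J + 2) * (1 / 2) ^ J := by
    induction J with
    | zero => simp
    | succ J ih =>
      rw [Finset.sum_Icc_succ_top (by omega), ih]
      have h1 : (1 / 2 : ℝ) ^ J = 2 * (1 / 2) ^ (J + 1) := by
        rw [pow_succ]; ring
      rw [h1]
      push_cast
      ring
  rw [h]
  have : 0 ≤ ((J : ℝ) + 2) * (1 / 2) ^ J := by positivity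
  linarith

/-- the escaping parameters in the `m`-th zone -/
def S (n m : ℕ) : Set ℂ := {c : ℂ | plog^[m] (n:ℝ) < Y n c ∧ Y n c ≤ plog^[m - 1] (n:ℝ)} \
      N62a1eb23.multibrotSet n

lemma meas_S (hMeas : P_MEAS) {n : ℕ} (hn : 2 ≤ n) (m : ℕ) : MeasurableSet (S n m) := by
  refine MeasurableSet.diff ?_ (hMeas n hn).1
  exact (measurableSet_lt measurable_const (cont_Y n).measurable).inter
    (measurableSet_le (cont_Y n).measurable measurable_const)

lemma S_disj {n m m' : ℕ} (h : m < m') (hm : 1 ≤ m) : Disjoint (S n m) (S n m') := by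
  rw [Set.disjoint_left]
  rintro c ⟨⟨h1, -⟩, -⟩ ⟨⟨-, h2⟩, -⟩
  have h3 : plog^[m' - 1] (n:ℝ) ≤ plog^[m] (n:ℝ) := it_anti n (by omega)
  linarith

lemma S_sub {n m : ℕ} (h : 1 ≤ plog^[m] (n:ℝ)) : S n m ⊆ Zn n (1 / 3) (2 * n) := by
  rintro c ⟨⟨h1, h2⟩, -⟩
  have h3 := it_le_n n (m - 1)
  have h4 : (0 : ℝ) ≤ n := Nat.cast_nonneg n
  refine ⟨?_, ?_⟩
  · show 1 / 3 ≤ Y n c
    linarith
  · show Y n c ≤ 2 * n
    linarith

/-- the packing -/
lemma pack (hMeas : P_MEAS) {n : ℕ} (hn : 2 ≤ n) (A : Set ℂ)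
    (hA1 : A ⊆ N62a1eb23.multibrotSet n) (hA2 : A ⊆ Zn n (1 / 3) (2 * n)) (T : Finset ℕ)
    (hT : ∀ m ∈ T, 1 ≤ m ∧ 1 ≤ plog^[m] (n:ℝ)) :
    (volume A).toReal + ∑ m ∈ T, (volume (S n m)).toReal ≤
      (volume (Zn n (1 / 3) (2 * n))).toReal := by
  have hZf := Zn_fin hn (1 / 3) (2 * n)
  have h1 : volume A + ∑ m ∈ T, volume (S n m) ≤ volume (Zn n (1 / 3) (2 * n)) := by
    rw [← measure_biUnion_finset ?_ (fun m _ => meas_S hMeas hn m), ← measure_union ?_
      (Finset.measurableSet_biUnion T fun m _ => meas_S hMeas hn m)]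
    · exact measure_mono (Set.union_subset hA2 (Set.iUnion₂_subset fun m hm =>
        S_sub (hT m hm).2))
    · rw [Set.disjoint_left]
      intro c hc hc'
      rw [Set.mem_iUnion₂] at hc'
      obtain ⟨m, -, -, h⟩ := hc'
      exact h (hA1 hc)
    · intro i hi j hj hij
      rcases Nat.lt_or_gt_of_ne hij with h | h
      · exact S_disj h (hT i hi).1
      · exact (S_disj h (hT j hj).1).symm
  have hf1 : volume A ≠ ⊤ := ne_top_of_le_ne_top hZf (le_self_add.trans h1)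
  have hf2 : ∀ m ∈ T, volume (S n m) ≠ ⊤ := fun m hm =>
    ne_top_of_le_ne_top hZf (measure_mono (S_sub (hT m hm).2))
  have h2 := ENNReal.toReal_mono hZf h1
  rwa [ENNReal.toReal_add hf1 (ENNReal.sum_ne_top.2 hf2), ENNReal.toReal_sum hf2] at h2

/-- sum over the escaping sets -/
lemma S_sum {n : ℕ} {C : ℝ} (hC : 0 ≤ C) (hS : ∀ m : ℕ, 1 ≤ m →
    2 * Real.pi * (1 / 2) ^ m * (plog^[m] (n:ℝ) - plog^[m + 1] (n:ℝ)) - C * (m * (1 / 2) ^ m) ≤
      n * (volume (S n m)).toReal) (J : ℕ) :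
    2 * Real.pi * ∑ m ∈ Finset.Icc 1 J, (1 / 2 : ℝ) ^ m *
        (plog^[m] (n:ℝ) - plog^[m + 1] (n:ℝ)) - (C + 2 * Real.pi) * 2 ≤
      ∑ m ∈ (Finset.Icc 1 J).filter (fun m => 1 ≤ plog^[m] (n:ℝ)),
        n * (volume (S n m)).toReal := by
  rw [Finset.sum_filter]
  have hπ := Real.pi_pos
  have h1 : ∀ m ∈ Finset.Icc 1 J,
      2 * Real.pi * ((1 / 2 : ℝ) ^ m * (plog^[m] (n:ℝ) - plog^[m + 1] (n:ℝ))) -
        (C + 2 * Real.pi) * (m * (1 / 2) ^ m) ≤
      if 1 ≤ plog^[m] (n:ℝ) then n * (volume (S n m)).toReal else 0 := by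
    intro m hm
    rw [Finset.mem_Icc] at hm
    have hp : (0 : ℝ) < (1 / 2) ^ m := by positivity
    have hm1 : (1 : ℝ) ≤ m := by exact_mod_cast hm.1
    split_ifs with h
    · have h2 := hS m hm.1
      have h3 : 0 ≤ 2 * Real.pi * (m * (1 / 2 : ℝ) ^ m) := by positivity
      linarith
    · push Not at h
      have h2 := it_nonneg n (m + 1)
      have h3 : (1 / 2 : ℝ) ^ m * (plog^[m] (n:ℝ) - plog^[m + 1] (n:ℝ)) ≤ (m : ℝ) * (1 / 2) ^ m := by
        rw [mul_comm]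
        apply mul_le_mul_of_nonneg_right _ hp.le
        linarith
      have h4 : 0 ≤ C * (m * (1 / 2 : ℝ) ^ m) := by positivity
      have h5 := mul_le_mul_of_nonneg_left h3 (show 0 ≤ 2 * Real.pi by positivity)
      linarith
  refine le_trans ?_ (Finset.sum_le_sum h1)
  rw [Finset.sum_sub_distrib, ← Finset.mul_sum, ← Finset.mul_sum]
  have h2 := mul_le_mul_of_nonneg_left (sum_j J) (show 0 ≤ C + 2 * Real.pi by positivity)
  linarith

/-- the area of the large annulus -/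
lemma ann {n : ℕ} {C : ℝ} (hn : 1 ≤ n) (h : ∀ a b : ℝ, 1 / 3 ≤ a → a ≤ b →
    b ≤ 2 * n → |n * (volume (Zn n a b)).toReal - 2 * Real.pi * Real.log (b / a)| ≤ C) :
    n * (volume (Zn n (1 / 3) (2 * n))).toReal ≤ 2 * Real.pi * plog^[1] (n:ℝ) + (C + 4 * Real.pi) := by
  have hn1 : (1 : ℝ) ≤ n := by exact_mod_cast hn
  have h1 := (abs_le.1 (h (1 / 3) (2 * n) le_rfl (by linarith) le_rfl)).2
  have e : Real.log (2 * (n:ℝ) / (1 / 3)) = Real.log 6 + Real.log n := by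
    rw [← Real.log_mul (by norm_num) (by linarith)]
    congr 1
    ring
  have h6 : Real.log 6 ≤ 2 := by
    rw [Real.log_le_iff_le_exp (by norm_num)]
    have h2 : Real.exp 2 = Real.exp 1 * Real.exp 1 := by
      rw [← Real.exp_add]; norm_num
    have h3 := Real.exp_one_gt_d9
    rw [h2]
    nlinarith
  rw [it_one hn]
  rw [e] at h1
  have hπ := Real.pi_pos
  have h7 := mul_le_mul_of_nonneg_left h6 (show 0 ≤ 2 * Real.pi by positivity)
  linarith

lemma Ex_disj {n : ℕ} (hn : 2 ≤ n) {i j : ℕ} (hij : i ≠ j) :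
    Disjoint (Ex n (i + 1)) (Ex n (j + 1)) := by
  rw [Set.disjoint_left]
  rintro c ⟨z, hz, hz1⟩ ⟨z', hz', hz1'⟩
  have h3 := period_unique hn hz hz'
  rw [hz1, hz1'] at h3
  exact hij (by omega)

lemma Ex_sub_M {n : ℕ} (hn : 2 ≤ n) (j : ℕ) : Ex n (j + 1) ⊆ N62a1eb23.multibrotSet n := by
  rintro c ⟨z, hz, -⟩
  exact mem_multibrot hn hz

lemma Ex_sub_Z {n : ℕ} (hn : 10 ^ 6 ≤ n) {j : ℕ} (hj : 1 ≤ j) :
    Ex n (j + 1) ⊆ Zn n (1 / 3) (2 * n) := by
  intro c hc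
  have h := Ex_sub_NN (by omega) j hc
  obtain ⟨a1, a2, -⟩ := alv' hn h.1 (h.2 1 le_rfl hj)
  exact ⟨a1, a2⟩

/-- sum of the volumes of the first sets -/
lemma Ex_vol (hMeas : P_MEAS) {n : ℕ} (hn : 2 ≤ n) (T : Finset ℕ) :
    volume (⋃ j ∈ T, Ex n (j + 1)) = ∑ j ∈ T, volume (Ex n (j + 1)) := by
  apply measure_biUnion_finset
  · intro i _ j _ hij
    exact Ex_disj hn hij
  · intro j _
    exact ((hMeas n hn).2 (j + 1)).1

end Pool.Agent.N547.AZ.Com
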