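import Pool.Agent.N228.AZ.Stm3
import Pool.Agent.N72.AZ.Main

/-!
# Project AZ: the area of the main hyperbolic component with error `O(1 / n)`
-/

set_option autoImplicit false
open Metric MeasureTheory Set Filter Topology

namespace Pool.Agent.N547.AZ.Main2

open Pool.Agent.W747.MB Pool.Agent.N228.AZ Pool.Agent.N72.AZMain

lemma ev_log : ∀ᶠ n : ℕ in atTop, (Real.log n + 1) ^ 2 ≤ (n : ℝ) - 1 := by
  have h1 : ∀ᶠ x : ℝ in atTop, ‖Real.log x ^ 2‖ ≤ 1 / 8 * ‖x‖ :=
    (Real.isLittleO_pow_log_id_atTop (n := 2)).bound (by norm_num)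
  filter_upwards [tendsto_natCast_atTop_atTop.eventually h1, eventually_ge_atTop 4] with n hn h2n
  have hn' : (4 : ℝ) ≤ n := by exact_mod_cast h2n
  rw [Real.norm_of_nonneg (sq_nonneg _), Real.norm_of_nonneg (by positivity)] at hn
  have h3 : (Real.log n + 1) ^ 2 ≤ 2 * Real.log n ^ 2 + 2 := by
    have := sq_nonneg (Real.log n - 1)
    linarith
  have : (1:ℝ) / 8 * n * 2 + 2 ≤ n - 1 := by linarith
  linarith

theorem main : P_MAIN2 := by
  refine ⟨11 * Real.pi, by positivity, ?_⟩
  filter_upwards [ev_log, eventually_ge_atTop 4] with n hlogn hn4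
  have hn : 2 ≤ n := by omega
  have hn' : (4 : ℝ) ≤ n := by exact_mod_cast hn4
  have hn0 : (0 : ℝ) < n := by linarith
  have hn1 : (0 : ℝ) < (n : ℝ) - 1 := by linarith
  have hpi := Real.pi_pos
  set V := volume {c : ℂ | ∃ z, N62a1eb23.IsAttractingCycle (f n c) 1 z} with hV
  obtain ⟨l, hl⟩ : ∃ l : ℝ, l = Real.log n := ⟨_, rfl⟩
  rw [← hl] at hlogn
  rw [← hl]
  have hl0 : 1 ≤ l := by
    rw [hl, Real.le_log_iff_exp_le (by positivity)]
    have := Real.exp_one_lt_d9
    linarith
  obtain ⟨e, he⟩ : ∃ e : ℝ, e = 1 / ((n : ℝ) - 1) := ⟨_, rfl⟩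
  have he0 : 0 < e := by rw [he]; positivity
  have he1 : e ≤ 1 := by
    rw [he, div_le_one hn1]
    linarith
  have heL : e * (l + 1) ^ 2 ≤ 1 := by
    rw [he, one_div_mul_eq_div, div_le_one hn1]
    exact hlogn
  have hne : n * e = 1 + e := by
    rw [he]
    field_simp
    ring
  have hel1 : e * (l + 1) ≤ 1 := by
    refine le_trans ?_ heL
    apply mul_le_mul_of_nonneg_left _ he0.le
    rw [sq]
    exact le_mul_of_one_le_left (by linarith) (by linarith)
  have hel2 : e * (l * l) ≤ 1 := by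
    refine le_trans ?_ heL
    apply mul_le_mul_of_nonneg_left _ he0.le
    rw [sq]
    exact mul_le_mul (by linarith) (by linarith) (by linarith) (by linarith)
  -- lower bound
  have low : ENNReal.ofReal (Real.pi * (1 - 2 * (e * (l + 1)))) ≤ V := by
    refine le_trans ?_ (measure_mono (inner hn))
    rw [vol_ball _ (Real.exp_pos _).le]
    apply ENNReal.ofReal_le_ofReal
    apply mul_le_mul_of_nonneg_left _ Real.pi_pos.le
    rw [← Real.exp_nat_mul, ← hl]
    have h1 := Real.add_one_le_exp (((2 : ℕ) : ℝ) * -((l + 1) / ((n : ℝ) - 1)))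
    refine le_trans (le_of_eq ?_) h1
    rw [he]
    push_cast
    ring
  set y : ℝ := 2 * (e * l) with hy
  have hy0 : 0 ≤ y := by positivity
  -- upper bound
  have up : V ≤ ENNReal.ofReal (Real.pi * (1 - y + y ^ 2 + 3 / n)) := by
    refine le_trans (measure_mono (outer hn)) ?_
    rw [vol_cball _ (by positivity)]
    apply ENNReal.ofReal_le_ofReal
    apply mul_le_mul_of_nonneg_left _ Real.pi_pos.le
    rw [← hl]
    have h2 : (1 + 1 / (n : ℝ)) ^ 2 ≤ 1 + 3 / n := by
      have h3 : 1 / (n : ℝ) ≤ 1 := by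
        rw [div_le_one hn0]
        linarith
      have h4 : 0 ≤ 1 / (n : ℝ) := by positivity
      have h5 : 3 / (n : ℝ) = 3 * (1 / n) := by ring
      rw [h5]
      nlinarith
    have h3n : 0 ≤ 3 / (n : ℝ) := by positivity
    rw [mul_pow, ← Real.exp_nat_mul]
    have e1 : ((2 : ℕ) : ℝ) * -(l / ((n : ℝ) - 1)) = -y := by
      rw [hy, he]
      push_cast
      ring
    rw [e1]
    by_cases hy1 : y ≤ 1
    · have h3 := Real.abs_exp_sub_one_sub_id_le (x := -y)
        (by rw [abs_neg, abs_of_nonneg hy0]; exact hy1)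
      have h4 := (abs_le.1 h3).2
      have h5 : Real.exp (-y) ≤ 1 := Real.exp_le_one_iff.2 (by linarith)
      have h6 : Real.exp (-y) * (1 + 1 / (n : ℝ)) ^ 2 ≤ Real.exp (-y) * (1 + 3 / n) :=
        mul_le_mul_of_nonneg_left h2 (Real.exp_pos _).le
      have h7 : Real.exp (-y) * (3 / n) ≤ 1 * (3 / n) := mul_le_mul_of_nonneg_right h5 h3n
      have h8 : Real.exp (-y) * (1 + 3 / n) = Real.exp (-y) + Real.exp (-y) * (3 / n) := by ring
      have h9 : (-y) ^ 2 = y ^ 2 := by ring
      rw [h9] at h4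
      linarith
    · push Not at hy1
      have h5 : Real.exp (-y) ≤ 1 := Real.exp_le_one_iff.2 (by linarith)
      have h6 : Real.exp (-y) * (1 + 1 / (n : ℝ)) ^ 2 ≤ 1 * (1 + 3 / n) :=
        mul_le_mul h5 h2 (by positivity) (by norm_num)
      have h7 : 1 * y ≤ y * y := mul_le_mul_of_nonneg_right hy1.le hy0
      have h8 : y ^ 2 = y * y := sq y
      linarith
  have hVfin : V ≠ ⊤ := ne_top_of_le_ne_top ENNReal.ofReal_ne_top up
  have low' : Real.pi * (1 - 2 * (e * (l + 1))) ≤ V.toReal :=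
    (ENNReal.ofReal_le_iff_le_toReal hVfin).1 low
  have h3n : 0 ≤ 3 / (n : ℝ) := by positivity
  have hpos : 0 ≤ 1 - y + y ^ 2 + 3 / n := by
    have := sq_nonneg (y - 1 / 2)
    have e2 : (y - 1 / 2) ^ 2 = y ^ 2 - y + 1 / 4 := by ring
    linarith
  have up' : V.toReal ≤ Real.pi * (1 - y + y ^ 2 + 3 / n) := by
    have := ENNReal.toReal_mono ENNReal.ofReal_ne_top up
    rwa [ENNReal.toReal_ofReal (by positivity)] at this
  rw [abs_le]
  constructor
  · -- `n (π - V) ≥ 2 π l - 11 π`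
    have h1 : n * (Real.pi * (y - y ^ 2 - 3 / n)) ≤ n * (Real.pi - V.toReal) := by
      apply mul_le_mul_of_nonneg_left _ hn0.le
      have : Real.pi * (y - y ^ 2 - 3 / n) = Real.pi - Real.pi * (1 - y + y ^ 2 + 3 / n) := by ring
      linarith
    have h2 : n * (Real.pi * (y - y ^ 2 - 3 / n)) =
        Real.pi * (2 * ((n * e) * l) - 4 * ((n * e) * (e * (l * l))) - 3) := by
      rw [hy]
      field_simp
      ring
    rw [hne] at h2
    have h3 : (1 + e) * (e * (l * l)) ≤ 2 * 1 :=
      mul_le_mul (by linarith) hel2 (by positivity) (by norm_num)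
    have h4 : l ≤ (1 + e) * l := le_mul_of_one_le_left (by linarith) (by linarith)
    have h5 : Real.pi * (2 * l - 11) ≤
        Real.pi * (2 * ((1 + e) * l) - 4 * ((1 + e) * (e * (l * l))) - 3) := by
      apply mul_le_mul_of_nonneg_left _ hpi.le
      linarith
    have h6 : Real.pi * (2 * l - 11) = 2 * Real.pi * l - 11 * Real.pi := by ring
    linarith
  · have h1 : n * (Real.pi - V.toReal) ≤ n * (Real.pi * (2 * (e * (l + 1)))) := by
      apply mul_le_mul_of_nonneg_left _ hn0.le
      have : Real.pi * (2 * (e * (l + 1))) = Real.pi - Real.pi * (1 - 2 * (e * (l + 1))) := by ring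
      linarith
    have h2 : n * (Real.pi * (2 * (e * (l + 1)))) = Real.pi * (2 * ((n * e) * (l + 1))) := by ring
    rw [hne] at h2
    have h3 : Real.pi * (2 * ((1 + e) * (l + 1))) ≤ Real.pi * (2 * l + 11) := by
      apply mul_le_mul_of_nonneg_left _ hpi.le
      have : (1 + e) * (l + 1) = l + 1 + e * (l + 1) := by ring
      linarith
    have h6 : Real.pi * (2 * l + 11) = 2 * Real.pi * l + 11 * Real.pi := by ring
    linarith

end Pool.Agent.N547.AZ.Main2
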