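import Pool.Agent.N547.AZ.Com

/-!
# Project AZ: the local law in the zones with error `O(1 / n)`
-/

set_option autoImplicit false
open Metric MeasureTheory Set Filter Topology

namespace Pool.Agent.N547.AZ.ToLoc

open Pool.Agent.W747.MB Pool.Agent.TH363.CD Pool.Agent.N228.AZ Pool.Agent.N547.AZ.Com
open Pool.Agent.N849.AZ (cont_Y meas_Zn Zn_fin sum_half)

theorem main : P_TOLOC := by
  rintro hMeas ⟨CA, hCA, hA⟩ ⟨CL, hCL, hL⟩ ⟨CS, hCS, hS⟩
  have hπ := Real.pi_pos
  refine ⟨CA + CL * 2 + CS * 2, by positivity, ?_⟩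
  filter_upwards [hA, hL, hS, eventually_ge_atTop (10 ^ 6)] with n hA hL hS hn k hk a b ha hka hab hb
  have hn2 : 2 ≤ n := by omega
  have hnR : (0 : ℝ) ≤ n := Nat.cast_nonneg n
  have hb2 : b ≤ 2 * n := by
    have := it_le_n n (k - 1)
    linarith
  have hAab := (abs_le.1 (hA a b ha hab hb2)).2
  have hZf := Zn_fin hn2 a b
  have hZm := meas_Zn n a b
  have hsub : ∀ s : Set ℂ, volume (s ∩ Zn n a b) ≠ ⊤ := fun s =>
    ne_top_of_le_ne_top hZf (measure_mono Set.inter_subset_right)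
  have hsub0 : volume (Zn n a b \ N62a1eb23.multibrotSet n) ≠ ⊤ :=
    ne_top_of_le_ne_top hZf (measure_mono Set.sdiff_subset)
  have hmeas : ∀ j ∈ Finset.Icc 1 k, MeasurableSet (Ex n (j + 1) ∩ Zn n a b) := fun j _ =>
      ((hMeas n hn2).2 (j + 1)).1.inter hZm
  -- the sum of the volumes
  have hsum : volume (NN n (k + 1) ∩ Zn n a b) +
      (∑ j ∈ Finset.Icc 1 k, volume (Ex n (j + 1) ∩ Zn n a b) +
      volume (Zn n a b \ N62a1eb23.multibrotSet n)) ≤ volume (Zn n a b) := by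
    rw [← measure_biUnion_finset ?_ hmeas, ← measure_union ?_ (hZm.diff (hMeas n hn2).1),
      ← measure_union ?_ ((Finset.measurableSet_biUnion _ hmeas).union
        (hZm.diff (hMeas n hn2).1))]
    · exact measure_mono (Set.union_subset Set.inter_subset_right
        (Set.union_subset (Set.iUnion₂_subset fun j _ =>
          Set.inter_subset_right) Set.sdiff_subset))
    · rw [Set.disjoint_left]
      rintro c ⟨hc, -⟩ (hc' | ⟨-, hc'⟩)
      · rw [Set.mem_iUnion₂] at hc'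
        obtain ⟨j, hj, ⟨z, hz, -⟩, -⟩ := hc'
        rw [Finset.mem_Icc] at hj
        exact hc.2 (j + 1) (by omega) (by omega) ⟨z, hz⟩
      · exact hc' hc.1
    · rw [Set.disjoint_left]
      rintro c hc ⟨-, hc'⟩
      rw [Set.mem_iUnion₂] at hc
      obtain ⟨j, -, ⟨z, hz, -⟩, -⟩ := hc
      exact hc' (mem_multibrot hn2 hz)
    · intro i _ j _ hij
      exact (Ex_disj hn2 hij).mono Set.inter_subset_left Set.inter_subset_left
  have hsum' : (volume (NN n (k + 1) ∩ Zn n a b)).toReal +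
      (∑ j ∈ Finset.Icc 1 k, (volume (Ex n (j + 1) ∩ Zn n a b)).toReal +
      (volume (Zn n a b \ N62a1eb23.multibrotSet n)).toReal) ≤ (volume (Zn n a b)).toReal := by
    have h3 := ENNReal.toReal_mono hZf hsum
    rw [ENNReal.toReal_add (hsub _) (ENNReal.add_ne_top.2
        ⟨ENNReal.sum_ne_top.2 fun j _ => hsub _, hsub0⟩),
      ENNReal.toReal_add (ENNReal.sum_ne_top.2 fun j _ => hsub _) hsub0,
      ENNReal.toReal_sum (fun j _ => hsub _)] at h3
    exact h3
  have h4 := mul_le_mul_of_nonneg_left hsum' hnR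
  rw [mul_add, mul_add, Finset.mul_sum] at h4
  have hNN0 : 0 ≤ n * (volume (NN n (k + 1) ∩ Zn n a b)).toReal := by positivity
  have hL' : ∀ j ∈ Finset.Icc 1 k, 2 * Real.pi * Real.log (b / a) * (1 / 2) ^ j -
      CL * (j * (1 / 2) ^ j) ≤ n * (volume (Ex n (j + 1) ∩ Zn n a b)).toReal := by
    intro j hj
    rw [Finset.mem_Icc] at hj
    have h := hL j hj.1 a b ha hab (hb.trans (it_anti n (show j - 1 ≤ k - 1 by omega)))
    linarith
  have hS' := hS k hk a b ha hka hab hb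
  have hlow : ∀ s ⊆ Finset.Icc 1 k, 2 * Real.pi * Real.log (b / a) * ∑ j ∈ s, (1 / 2 : ℝ) ^ j -
      CL * 2 ≤ ∑ j ∈ s, n * (volume (Ex n (j + 1) ∩ Zn n a b)).toReal := by
    intro s hs
    have h1 : ∑ j ∈ s, (j : ℝ) * (1 / 2) ^ j ≤ 2 :=
      le_trans (Finset.sum_le_sum_of_subset_of_nonneg hs fun j _ _ => by positivity) (sum_j k)
    have h2 := mul_le_mul_of_nonneg_left h1 hCL.le
    have h3 := Finset.sum_le_sum fun j (hj : j ∈ s) => hL' j (hs hj)
    rw [Finset.sum_sub_distrib, ← Finset.mul_sum, ← Finset.mul_sum] at h3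
    linarith
  have hkk : (k : ℝ) * (1 / 2) ^ k ≤ 2 := by
    refine le_trans ?_ (sum_j k)
    exact Finset.single_le_sum (f := fun j : ℕ => (j : ℝ) * (1 / 2) ^ j)
      (fun j _ => by positivity) (Finset.mem_Icc.2 ⟨hk, le_rfl⟩)
  have hCSk := mul_le_mul_of_nonneg_left hkk hCS.le
  have hhalf := sum_half k
  have hfull := hlow _ le_rfl
  have e0 : 2 * Real.pi * Real.log (b / a) * ∑ j ∈ Finset.Icc 1 k, (1 / 2 : ℝ) ^ j +
      2 * Real.pi * Real.log (b / a) * (1 / 2) ^ k = 2 * Real.pi * Real.log (b / a) := by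
    rw [← mul_add, hhalf, mul_one]
  refine ⟨?_, ?_, ?_⟩
  · intro j hj1 hjk
    have hj : j ∈ Finset.Icc 1 k := Finset.mem_Icc.2 ⟨hj1, hjk⟩
    have h5 := hlow _ (Finset.erase_subset j (Finset.Icc 1 k))
    have h6 := Finset.add_sum_erase (Finset.Icc 1 k)
      (fun j => n * (volume (Ex n (j + 1) ∩ Zn n a b)).toReal) hj
    have h7 := Finset.add_sum_erase (Finset.Icc 1 k) (fun j => (1 / 2 : ℝ) ^ j) hj
    beta_reduce at h6 h7
    have h8 := hL' j hj
    have hjj : (j : ℝ) * (1 / 2) ^ j ≤ 2 := by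
      refine le_trans ?_ (sum_j k)
      exact Finset.single_le_sum (f := fun j : ℕ => (j : ℝ) * (1 / 2) ^ j)
        (fun j _ => by positivity) hj
    have h9 := mul_le_mul_of_nonneg_left hjj hCL.le
    have e1 : 2 * Real.pi * Real.log (b / a) * (1 / 2 : ℝ) ^ j +
        2 * Real.pi * Real.log (b / a) * ∑ j ∈ (Finset.Icc 1 k).erase j, (1 / 2 : ℝ) ^ j =
        2 * Real.pi * Real.log (b / a) * ∑ j ∈ Finset.Icc 1 k, (1 / 2 : ℝ) ^ j := by
      rw [← mul_add, h7]
    rw [abs_le]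
    constructor <;> linarith
  · rw [abs_le]
    constructor <;> linarith
  · linarith

end Pool.Agent.N547.AZ.ToLoc
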