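import Pool.Agent.N547.AZ.Com

/-!
# Project AZ: uniform asymptotics of the areas of exact period `k + 1`
-/

set_option autoImplicit false
open Metric MeasureTheory Set Filter Topology

namespace Pool.Agent.N547.AZ.ToU1

open Pool.Agent.W747.MB Pool.Agent.TH363.CD Pool.Agent.N228.AZ Pool.Agent.N547.AZ.Com
open Pool.Agent.N849.AZ (cont_Y meas_Zn Zn_fin)

theorem main : P_TOU1 := by
  rintro hMeas ⟨CA, hCA, hA⟩ ⟨CL, hCL, hL⟩ ⟨CS, hCS, hS⟩
  have hπ := Real.pi_pos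
  refine ⟨CA + 4 * Real.pi + 2 * CL + (CS + 2 * Real.pi) * 2, by positivity, ?_⟩
  filter_upwards [hA, hL, hS, eventually_ge_atTop (10 ^ 6)] with n hA hL hS hn k hk
  have hn2 : 2 ≤ n := by omega
  have hnR : (0 : ℝ) ≤ n := Nat.cast_nonneg n
  obtain ⟨J, hJ⟩ : ∃ J, J = max n k := ⟨_, rfl⟩
  have hJn : n ≤ J := by omega
  have hJk : k ≤ J := by omega
  have hZf := Zn_fin hn2 (1 / 3) (2 * n)
  have hEf : ∀ j ∈ Finset.Icc 1 J, volume (Ex n (j + 1)) ≠ ⊤ := fun j hj =>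
    ne_top_of_le_ne_top hZf (measure_mono (Ex_sub_Z hn (Finset.mem_Icc.1 hj).1))
  -- the packing
  have h1 := pack hMeas hn2 (⋃ j ∈ Finset.Icc 1 J, Ex n (j + 1))
    (Set.iUnion₂_subset fun j _ => Ex_sub_M hn2 j)
    (Set.iUnion₂_subset fun j hj => Ex_sub_Z hn (Finset.mem_Icc.1 hj).1)
    ((Finset.Icc 1 J).filter fun m => 1 ≤ plog^[m] (n:ℝ))
    (fun m hm => by
      rw [Finset.mem_filter, Finset.mem_Icc] at hm
      exact ⟨hm.1.1, hm.2⟩)
  rw [Ex_vol hMeas hn2, ENNReal.toReal_sum hEf] at h1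
  have h2 := S_sum hCS.le hS J
  have h3 := ann (by omega) hA
  have h4 := mul_le_mul_of_nonneg_left h1 hnR
  rw [mul_add, Finset.mul_sum, Finset.mul_sum] at h4
  have hk' : k ∈ Finset.Icc 1 J := Finset.mem_Icc.2 ⟨hk, hJk⟩
  rw [← Finset.add_sum_erase _ _ hk'] at h4
  -- lower bound for the others
  have h5 : 2 * Real.pi * ∑ j ∈ (Finset.Icc 1 J).erase k, (1 / 2 : ℝ) ^ j * plog^[j] (n:ℝ) -
      CL * ∑ j ∈ (Finset.Icc 1 J).erase k, (j : ℝ) * (1 / 2) ^ j ≤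
      ∑ j ∈ (Finset.Icc 1 J).erase k, n * (volume (Ex n (j + 1))).toReal := by
    rw [Finset.mul_sum, Finset.mul_sum, ← Finset.sum_sub_distrib]
    refine Finset.sum_le_sum fun j hj => ?_
    have h := hL j (Finset.mem_Icc.1 (Finset.mem_of_mem_erase hj)).1
    linarith
  have h6 : ∑ j ∈ (Finset.Icc 1 J).erase k, (j : ℝ) * (1 / 2) ^ j ≤ 2 := by
    refine le_trans (Finset.sum_le_sum_of_subset_of_nonneg (Finset.erase_subset _ _)
      fun j _ _ => by positivity) (sum_j J)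
  have h7 := mul_le_mul_of_nonneg_left h6 hCL.le
  have h8 := Finset.add_sum_erase (Finset.Icc 1 J)
    (fun j => (1 / 2 : ℝ) ^ j * plog^[j] (n:ℝ)) hk'
  beta_reduce at h8
  have h9 := tele (fun j => plog^[j] (n:ℝ)) J
  beta_reduce at h9
  rw [it_zero (show n ≤ J + 1 by omega), mul_zero, sub_zero] at h9
  have hlow := hL k hk
  have h10 : (k : ℝ) * (1 / 2) ^ k ≤ 2 := by
    refine le_trans ?_ (sum_j k)
    exact Finset.single_le_sum (f := fun j : ℕ => (j : ℝ) * (1 / 2) ^ j)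
      (fun j _ => by positivity) (Finset.mem_Icc.2 ⟨hk, le_rfl⟩)
  have h11 := mul_le_mul_of_nonneg_left h10 hCL.le
  have hup : n * (volume (Ex n (k + 1))).toReal ≤ 2 * Real.pi * ((1 / 2) ^ k * plog^[k] (n:ℝ)) +
      (CA + 4 * Real.pi + 2 * CL + (CS + 2 * Real.pi) * 2) := by
    have e1 : 2 * Real.pi * (∑ j ∈ (Finset.Icc 1 J).erase k, (1 / 2 : ℝ) ^ j * plog^[j] (n:ℝ) +
        ∑ m ∈ Finset.Icc 1 J, (1 / 2 : ℝ) ^ m * (plog^[m] (n:ℝ) - plog^[m + 1] (n:ℝ))) =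
        2 * Real.pi * (plog^[1] (n:ℝ) - (1 / 2) ^ k * plog^[k] (n:ℝ)) := by
      congr 1
      linarith
    linarith
  rw [abs_le]
  constructor
  · have : (0 : ℝ) ≤ CS * 2 := by positivity
    linarith
  · linarith

end Pool.Agent.N547.AZ.ToU1
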