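import Pool.Agent.N547.AZ.Com

/-!
# Project AZ: the area of the Multibrot sets with error `O(1 / n)`
-/

set_option autoImplicit false
open Metric MeasureTheory Set Filter Topology

namespace Pool.Agent.N547.AZ.ToU2

open Pool.Agent.W747.MB Pool.Agent.TH363.CD Pool.Agent.N228.AZ Pool.Agent.N547.AZ.Com
open Pool.Agent.N849.AZ (cont_Y meas_Zn Zn_fin)

/-- The parameters with an attracting fixed point. -/
def Wf (n : ℕ) : Set ℂ := {c : ℂ | ∃ z, N62a1eb23.IsAttractingCycle (f n c) 1 z}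

lemma Wf_fin {n : ℕ} (hn : 2 ≤ n) : volume (Wf n) ≠ ⊤ :=
  ne_top_of_le_ne_top measure_closedBall_lt_top.ne (measure_mono (Pool.Agent.N72.AZMain.outer hn))

lemma Wf_disj {n : ℕ} (hn : 2 ≤ n) {j : ℕ} (hj : 1 ≤ j) : Disjoint (Wf n) (Ex n (j + 1)) := by
  rw [Set.disjoint_left]
  intro c hc hc'
  exact (Ex_sub_NN hn j hc').2 1 le_rfl hj hc

lemma hyp_sub {n : ℕ} (hn : 2 ≤ n) : hyp n ⊆ N62a1eb23.multibrotSet n := by
  rintro c ⟨m, z, hz⟩
  exact mem_multibrot hn (m := m) (z := z) hz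

lemma Wf_sub (n : ℕ) : Wf n ⊆ hyp n := by
  rintro c ⟨z, hz⟩
  exact ⟨1, z, hz⟩

lemma Ex_sub (n j : ℕ) : Ex n (j + 1) ⊆ hyp n := by
  rintro c ⟨z, hz, -⟩
  exact ⟨j + 1, z, hz⟩

theorem main : P_TOU2 := by
  rintro hMeas ⟨CA, hCA, hA⟩ ⟨CM, hCM, hM⟩ ⟨CL, hCL, hL⟩ ⟨CS, hCS, hS⟩
  have hπ := Real.pi_pos
  refine ⟨CM + (CA + 4 * Real.pi) + 2 * CL + (CS + 2 * Real.pi) * 2, by positivity, ?_⟩
  filter_upwards [hA, hM, hL, hS, eventually_ge_atTop (10 ^ 6)] with n hA hM hL hS hn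
  have hn2 : 2 ≤ n := by omega
  have hnR : (0 : ℝ) ≤ n := Nat.cast_nonneg n
  have hZf := Zn_fin hn2 (1 / 3) (2 * n)
  have hWfin := Wf_fin hn2
  have hEf : ∀ j ∈ Finset.Icc 1 n, volume (Ex n (j + 1)) ≠ ⊤ := fun j hj =>
    ne_top_of_le_ne_top hZf (measure_mono (Ex_sub_Z hn (Finset.mem_Icc.1 hj).1))
  -- the sum over the periods
  set Sg : ℝ := ∑ j ∈ Finset.Icc 1 n, (1 / 2 : ℝ) ^ j * plog^[j] (n:ℝ) with hSg
  have hrange : ∑ j ∈ Finset.range n, 2 * Real.pi * (1 / 2 : ℝ) ^ (j + 1) * plog^[j + 1] (n:ℝ) =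
      2 * Real.pi * Sg := by
    rw [hSg, Finset.mul_sum, Finset.range_eq_Ico, Finset.sum_Ico_add' (fun j =>
      2 * Real.pi * (1 / 2 : ℝ) ^ j * plog^[j] (n:ℝ)) 0 n 1]
    rw [show Finset.Ico (0 + 1) (n + 1) = Finset.Icc 1 n by ext x; simp]
    refine Finset.sum_congr rfl fun j _ => ?_
    ring
  rw [hrange]
  have htele := tele (fun j => plog^[j] (n:ℝ)) n
  beta_reduce at htele
  rw [it_zero (show n ≤ n + 1 by omega), mul_zero, sub_zero, ← hSg] at htele
  obtain ⟨hM1, hM2⟩ := abs_le.1 hM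
  have hWeq : {c : ℂ | ∃ z, N62a1eb23.IsAttractingCycle (f n c) 1 z} = Wf n := rfl
  rw [hWeq] at hM1 hM2
  -- `M \ W`
  have hMW : N62a1eb23.multibrotSet n \ Wf n ⊆ Zn n (1 / 3) (2 * n) := by
    rintro c ⟨hc1, hc2⟩
    obtain ⟨a1, a2, -⟩ := alv' hn hc1 hc2
    exact ⟨a1, a2⟩
  have h1 := pack hMeas hn2 (N62a1eb23.multibrotSet n \ Wf n) Set.sdiff_subset hMW
    ((Finset.Icc 1 n).filter fun m => 1 ≤ plog^[m] (n:ℝ))
    (fun m hm => by
      rw [Finset.mem_filter, Finset.mem_Icc] at hm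
      exact ⟨hm.1.1, hm.2⟩)
  have h2 := S_sum hCS.le hS n
  have h3 := ann (by omega) hA
  have h4 := mul_le_mul_of_nonneg_left h1 hnR
  rw [mul_add, Finset.mul_sum] at h4
  have hMWf : volume (N62a1eb23.multibrotSet n \ Wf n) ≠ ⊤ :=
    ne_top_of_le_ne_top hZf (measure_mono hMW)
  have hMle : volume (N62a1eb23.multibrotSet n) ≤
      volume (Wf n) + volume (N62a1eb23.multibrotSet n \ Wf n) := by
    refine (measure_mono ?_).trans (measure_union_le _ _)
    intro c hc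
    by_cases h : c ∈ Wf n
    · exact Or.inl h
    · exact Or.inr ⟨hc, h⟩
  have hsumf : volume (Wf n) + volume (N62a1eb23.multibrotSet n \ Wf n) ≠ ⊤ :=
    ENNReal.add_ne_top.2 ⟨hWfin, hMWf⟩
  have hMf : volume (N62a1eb23.multibrotSet n) ≠ ⊤ := ne_top_of_le_ne_top hsumf hMle
  have hMle' : (volume (N62a1eb23.multibrotSet n)).toReal ≤ (volume (Wf n)).toReal +
      (volume (N62a1eb23.multibrotSet n \ Wf n)).toReal := by
    rw [← ENNReal.toReal_add hWfin hMWf]
    exact ENNReal.toReal_mono hsumf hMle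
  -- `hyp`
  have hHf : volume (hyp n) ≠ ⊤ := ne_top_of_le_ne_top hMf (measure_mono (hyp_sub hn2))
  have hHM : (volume (hyp n)).toReal ≤ (volume (N62a1eb23.multibrotSet n)).toReal :=
    ENNReal.toReal_mono hMf (measure_mono (hyp_sub hn2))
  have hH : (volume (Wf n)).toReal + ∑ j ∈ Finset.Icc 1 n, (volume (Ex n (j + 1))).toReal ≤
      (volume (hyp n)).toReal := by
    rw [← ENNReal.toReal_sum hEf, ← ENNReal.toReal_add hWfin (ENNReal.sum_ne_top.2 hEf),
      ← Ex_vol hMeas hn2, ← measure_union ?_ (Finset.measurableSet_biUnion _ fun j _ =>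
        ((hMeas n hn2).2 (j + 1)).1)]
    · exact ENNReal.toReal_mono hHf (measure_mono (Set.union_subset (Wf_sub n)
        (Set.iUnion₂_subset fun j _ => Ex_sub n j)))
    · rw [Set.disjoint_left]
      intro c hc hc'
      rw [Set.mem_iUnion₂] at hc'
      obtain ⟨j, hj, hc'⟩ := hc'
      exact Set.disjoint_left.1 (Wf_disj hn2 (Finset.mem_Icc.1 hj).1) hc hc'
  have h5 : 2 * Real.pi * Sg - CL * ∑ j ∈ Finset.Icc 1 n, (j : ℝ) * (1 / 2) ^ j ≤
      ∑ j ∈ Finset.Icc 1 n, n * (volume (Ex n (j + 1))).toReal := by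
    rw [hSg, Finset.mul_sum, Finset.mul_sum, ← Finset.sum_sub_distrib]
    refine Finset.sum_le_sum fun j hj => ?_
    have h := hL j (Finset.mem_Icc.1 hj).1
    linarith
  have h7 := mul_le_mul_of_nonneg_left (sum_j n) hCL.le
  have h8 := mul_le_mul_of_nonneg_left hH hnR
  rw [mul_add, Finset.mul_sum] at h8
  -- upper bound
  have hup : n * (Real.pi - (volume (hyp n)).toReal) ≤
      2 * Real.pi * Real.log n - 2 * Real.pi * Sg + (CM + 2 * CL) := by
    have e1 : n * (Real.pi - (volume (hyp n)).toReal) =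
      n * Real.pi - n * (volume (hyp n)).toReal := by ring
    have e2 : n * (Real.pi - (volume (Wf n)).toReal) =
      n * Real.pi - n * (volume (Wf n)).toReal := by ring
    rw [e1]
    rw [e2] at hM2
    linarith
  have hlo : 2 * Real.pi * Real.log n - 2 * Real.pi * Sg -
      (CM + (CA + 4 * Real.pi) + (CS + 2 * Real.pi) * 2) ≤
      n * (Real.pi - (volume (N62a1eb23.multibrotSet n)).toReal) := by
    have e1 : n * (Real.pi - (volume (N62a1eb23.multibrotSet n)).toReal) =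
      n * Real.pi - n * (volume (N62a1eb23.multibrotSet n)).toReal := by ring
    have e2 : n * (Real.pi - (volume (Wf n)).toReal) =
      n * Real.pi - n * (volume (Wf n)).toReal := by ring
    rw [e1]
    rw [e2] at hM1
    have h9 := mul_le_mul_of_nonneg_left hMle' hnR
    rw [mul_add] at h9
    have e3 : 2 * Real.pi * (Sg + ∑ m ∈ Finset.Icc 1 n, (1 / 2 : ℝ) ^ m *
        (plog^[m] (n:ℝ) - plog^[m + 1] (n:ℝ))) = 2 * Real.pi * plog^[1] (n:ℝ) := by
      rw [htele]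
    linarith
  have hmid : n * (Real.pi - (volume (N62a1eb23.multibrotSet n)).toReal) ≤
      n * (Real.pi - (volume (hyp n)).toReal) := by
    apply mul_le_mul_of_nonneg_left _ hnR
    linarith
  have hCSp : 0 ≤ (CS + 2 * Real.pi) * 2 := by positivity
  constructor
  · rw [abs_le]
    constructor <;> linarith
  · rw [abs_le]
    constructor <;> linarith

end Pool.Agent.N547.AZ.ToU2
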